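import Pool.Agent.K.MP_b67dab_lc.C0

namespace Pool.Agent.Results.MP_b67dab_lc.NotEquiv

open Pool.Agent.P.MP_b67dab_lc

theorem result (X Y : Rep) (h : Problem X Y)
    (hh : ∃ (U V W : Rep) (f₀ : Problem V W) (g₀ : Problem U V),
      WLe f₀ listing ∧ WLe g₀ listing ∧ WLe h (comp f₀ g₀)) :
    ¬ WLe uniqueChoice h :=
  main h hh

end Pool.Agent.Results.MP_b67dab_lc.NotEquiv
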